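import Pool.Agent.Helper22.LIL.Defs
import Pool.Agent.Helper97.LIL.GR

/-!
# Block C1: the size of a block
-/

open MeasureTheory Filter Set
open scoped Real Topology

namespace Pool.Agent.Helper22.LIL

open Pool.Agent.Helper22.GC Pool.Agent.Helper53.OM

noncomputable section

private lemma c1_gr (hgr : ∀ {p : ℕ}, p.Prime → ∀ {m : ℕ}, 0 < m → ∀ k : ℕ,
    gr (m * p ^ (2 * k)) ≤ (2 * k + 1) * gr m) (j : ℕ) (hj : 0 < j) :
    ∀ q : ℕ, 0 < q → gr (q * j ^ 2) ≤ (j ^ 2).divisors.card * gr q := by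
  induction j using Nat.recOnPosPrimePosCoprime with
  | prime_pow p n hp hn =>
    intro q hq
    rw [← pow_mul, mul_comm n 2]
    refine (hgr hp hq n).trans ?_
    rw [Nat.divisors_prime_pow hp, Finset.card_map, Finset.card_range]
  | zero => omega
  | one => intro q hq; simp
  | coprime a b ha hb hab iha ihb =>
    intro q hq
    have h1 : q * (a * b) ^ 2 = (q * a ^ 2) * b ^ 2 := by ring
    have h2 : ((a * b) ^ 2).divisors.card = (a ^ 2).divisors.card * (b ^ 2).divisors.card := by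
      rw [mul_pow]
      exact Nat.Coprime.card_divisors_mul (Nat.Coprime.pow 2 2 hab)
    rw [h1, h2]
    refine (ihb (by omega) (q * a ^ 2) (Nat.mul_pos hq (pow_pos (by omega) 2))).trans ?_
    have h3 := iha (by omega) q hq
    calc (b ^ 2).divisors.card * gr (q * a ^ 2)
        ≤ (b ^ 2).divisors.card * ((a ^ 2).divisors.card * gr q) := Nat.mul_le_mul_left _ h3
      _ = (a ^ 2).divisors.card * (b ^ 2).divisors.card * gr q := by ring

private lemma c1_tau : ∃ C : ℝ, 0 < C ∧ ∀ n : ℕ, 0 < n →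
    (((n ^ 2).divisors.card : ℕ) : ℝ) ≤ C * (n : ℝ) ^ (1 / 4 : ℝ) := by
  refine submul_bound (f := fun n => (((n ^ 2).divisors.card : ℕ) : ℝ))
    (fun n => Nat.cast_nonneg _) (B := 2) (by norm_num) ?_ ?_ (by norm_num)
  · intro m n hm hn h
    rw [mul_pow, Nat.Coprime.card_divisors_mul (Nat.Coprime.pow 2 2 h)]
    push_cast
    exact le_refl _
  · intro p e hp
    rw [← pow_mul, Nat.divisors_prime_pow hp, Finset.card_map, Finset.card_range]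
    push_cast
    linarith

theorem bq_le_of (hgr : ∀ {p : ℕ}, p.Prime → ∀ {m : ℕ}, 0 < m → ∀ k : ℕ,
    gr (m * p ^ (2 * k)) ≤ (2 * k + 1) * gr m) :
    ∃ C : ℝ, 0 < C ∧ ∀ N q : ℕ, 0 < q → bq N q ≤ C * rho q := by
  obtain ⟨C, hC, hτ⟩ := c1_tau
  have hs : Summable (fun n : ℕ => (n : ℝ) ^ (-(5 / 4) : ℝ)) :=
    Real.summable_nat_rpow.mpr (by norm_num)
  have hnn : ∀ n : ℕ, 0 ≤ (n : ℝ) ^ (-(5 / 4) : ℝ) := fun n => Real.rpow_nonneg (Nat.cast_nonneg n) _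
  refine ⟨C * (∑' n : ℕ, (n : ℝ) ^ (-(5 / 4) : ℝ) + 1), mul_pos hC
    (add_pos_of_nonneg_of_pos (tsum_nonneg hnn) one_pos), fun N q hq => ?_⟩
  have hq0 : (0 : ℝ) < q := by exact_mod_cast hq
  have hrho : 0 ≤ rho q := by
    unfold rho
    positivity
  have hterm : ∀ j ∈ js N q, rho (q * j ^ 2) ≤ C * rho q * (j : ℝ) ^ (-(5 / 4) : ℝ) := by
    intro j hj
    simp only [js, Finset.mem_filter, Finset.mem_Icc] at hj
    have hj1 : 0 < j := by omega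
    have hj0 : (0 : ℝ) < j := by exact_mod_cast hj1
    have h1 : (gr (q * j ^ 2) : ℝ) ≤ (C * (j : ℝ) ^ (1 / 4 : ℝ)) * gr q := by
      refine le_trans ?_ (mul_le_mul_of_nonneg_right (hτ j hj1) (Nat.cast_nonneg _))
      exact_mod_cast c1_gr hgr j hj1 q hq
    have h2 : (((q * j ^ 2 : ℕ)) : ℝ) ^ (-(3 / 4) : ℝ)
        = (q : ℝ) ^ (-(3 / 4) : ℝ) * (j : ℝ) ^ (-(3 / 2) : ℝ) := by
      push_cast
      rw [Real.mul_rpow hq0.le (by positivity), ← Real.rpow_natCast, ← Real.rpow_mul hj0.le]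
      norm_num
    unfold rho
    rw [h2]
    have h3 : (j : ℝ) ^ (-(5 / 4) : ℝ) = (j : ℝ) ^ (1 / 4 : ℝ) * (j : ℝ) ^ (-(3 / 2) : ℝ) := by
      rw [← Real.rpow_add hj0]; norm_num
    rw [h3]
    calc (gr (q * j ^ 2) : ℝ) * ((q : ℝ) ^ (-(3 / 4) : ℝ) * (j : ℝ) ^ (-(3 / 2) : ℝ))
        ≤ ((C * (j : ℝ) ^ (1 / 4 : ℝ)) * gr q)
          * ((q : ℝ) ^ (-(3 / 4) : ℝ) * (j : ℝ) ^ (-(3 / 2) : ℝ)) :=
          mul_le_mul_of_nonneg_right h1 (by positivity)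
      _ = _ := by ring
  unfold bq
  refine (Finset.sum_le_sum hterm).trans ?_
  rw [← Finset.mul_sum]
  have h5 : ∑ j ∈ js N q, (j : ℝ) ^ (-(5 / 4) : ℝ) ≤ ∑' n : ℕ, (n : ℝ) ^ (-(5 / 4) : ℝ) :=
    hs.sum_le_tsum _ (fun n _ => hnn n)
  calc C * rho q * ∑ j ∈ js N q, (j : ℝ) ^ (-(5 / 4) : ℝ)
      ≤ C * rho q * (∑' n : ℕ, (n : ℝ) ^ (-(5 / 4) : ℝ) + 1) :=
        mul_le_mul_of_nonneg_left (by linarith) (mul_nonneg hC.le hrho)
    _ = _ := by ring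

/-- C1 -/
theorem bq_le : ∃ C : ℝ, 0 < C ∧ ∀ N q : ℕ, 0 < q → bq N q ≤ C * rho q :=
  bq_le_of fun hp _ hm k => gr_mul_sq_le hp hm k

end

end Pool.Agent.Helper22.LIL
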