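import Pool.Agent.Helper22.LIL.Defs

/-!
# Block SP: the Hardy sum regrouped by squarefree part
-/

open MeasureTheory Filter Set
open scoped Real Topology

namespace Pool.Agent.Helper22.LIL

open Pool.Agent.Helper22.GC Pool.Agent.Helper53.OM

noncomputable section

private lemma sp_uniq {q q' j j' : ℕ} (hq : Squarefree q) (hq' : Squarefree q') (hj : j ≠ 0)
    (hj' : j' ≠ 0) (h : q * j ^ 2 = q' * j' ^ 2) : q = q' ∧ j = j' := by
  have hq0 : q ≠ 0 := hq.ne_zero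
  have hq0' : q' ≠ 0 := hq'.ne_zero
  have key : ∀ p, q.factorization p + 2 * j.factorization p
      = q'.factorization p + 2 * j'.factorization p := by
    intro p
    have h1 := congrArg (fun n => n.factorization p) h
    rw [Nat.factorization_mul hq0 (pow_ne_zero 2 hj), Nat.factorization_mul hq0' (pow_ne_zero 2 hj'),
      Nat.factorization_pow, Nat.factorization_pow] at h1
    simpa using h1
  have hb : ∀ p, q.factorization p ≤ 1 := fun p => hq.natFactorization_le_one p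
  have hb' : ∀ p, q'.factorization p ≤ 1 := fun p => hq'.natFactorization_le_one p
  constructor
  · refine Nat.eq_of_factorization_eq hq0 hq0' fun p => ?_
    have h1 := key p; have h2 := hb p; have h3 := hb' p
    omega
  · refine Nat.eq_of_factorization_eq hj hj' fun p => ?_
    have h1 := key p; have h2 := hb p; have h3 := hb' p
    omega

/-- SP -/
theorem TK_eq_SQ (N : ℕ) (x : ℝ) : TK N x = SQ (sqf N) N x := by
  classical
  rw [TK_eq, SQ, Finset.sum_sigma', Finset.mul_sum]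
  symm
  refine Finset.sum_bij (fun (t : Σ _ : ℕ, ℕ) _ => t.1 * t.2 ^ 2) ?_ ?_ ?_ ?_
  · rintro ⟨q, j⟩ ht
    simp only [Finset.mem_sigma, sqf, js, Finset.mem_filter, Finset.mem_Icc] at ht ⊢
    obtain ⟨⟨⟨h1, h2⟩, h3⟩, ⟨h4, h5⟩, h6⟩ := ht
    exact ⟨Nat.mul_pos h1 (pow_pos h4 2), h6⟩
  · rintro ⟨q, j⟩ ht ⟨q', j'⟩ ht' h
    simp only [Finset.mem_sigma, sqf, js, Finset.mem_filter, Finset.mem_Icc] at ht ht' h
    obtain ⟨⟨⟨h1, h2⟩, h3⟩, ⟨h4, h5⟩, h6⟩ := ht
    obtain ⟨⟨⟨h1', h2'⟩, h3'⟩, ⟨h4', h5'⟩, h6'⟩ := ht'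
    obtain ⟨e1, e2⟩ := sp_uniq h3 h3' (by omega) (by omega) h
    subst e1; subst e2; rfl
  · intro n hn
    rw [Finset.mem_Icc] at hn
    obtain ⟨a, b, ha, hb, hab, hsq⟩ := Nat.sq_mul_squarefree_of_pos (show 0 < n by omega)
    have hab' : a * b ^ 2 = n := by rw [← hab]; ring
    have ha' : a ≤ n := by
      rw [← hab']; exact Nat.le_mul_of_pos_right a (pow_pos hb 2)
    have hb' : b ≤ n := by
      rw [← hab']
      calc b ≤ b ^ 2 := Nat.le_self_pow (by norm_num) b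
        _ ≤ a * b ^ 2 := Nat.le_mul_of_pos_left _ ha
    refine ⟨⟨a, b⟩, ?_, hab'⟩
    simp only [Finset.mem_sigma, sqf, js, Finset.mem_filter, Finset.mem_Icc]
    exact ⟨⟨⟨ha, ha'.trans hn.2⟩, hsq⟩, ⟨hb, hb'.trans hn.2⟩, by rw [hab']; exact hn.2⟩
  · rintro ⟨q, j⟩ ht
    simp only [rho]
    have h1 : √((q * j ^ 2 : ℕ) : ℝ) = j * √(q : ℝ) := by
      push_cast
      rw [Real.sqrt_mul (Nat.cast_nonneg q), Real.sqrt_sq (Nat.cast_nonneg j)]
      ring
    have h2 : (((q * j ^ 2 : ℕ)) : ℝ) ^ (-(3 / 4) : ℝ) = ((((q * j ^ 2 : ℕ)) : ℝ) ^ (3 / 4 : ℝ))⁻¹ :=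
      Real.rpow_neg (Nat.cast_nonneg _) _
    rw [h1, h2]
    have h3 : 2 * π * (x * (j * √(q : ℝ))) - 3 * π / 4 = 2 * π * (j * √(q : ℝ)) * x - 3 * π / 4 := by
      ring
    rw [h3]
    ring

end

end Pool.Agent.Helper22.LIL
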